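import Mathlib

/-!
# MP_828339_co: no finite family of graphon sequences realises all density domination exponents

We use `G_k = K_{1,k} ⊔ K_{1,k+2}` and `H_k = K_{1,k+1} ⊔ K_{1,k+1}`, for which
`ρ(G_k, H_k) = (2k+2)/(2k+1)`, and show that a graphon sequence realises this exponent for at most
one `k`.
-/

namespace Pool.Agent.Results.MP_828339_co.FiniteFamilies

open MeasureTheory Filter Topology unitInterval

/-- A graphon on `[0,1]`. -/
structure Graphon where
  /-- the function -/
  toFun : I → I → ℝ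
  measurable' : Measurable (Function.uncurry toFun)
  symm' : ∀ x y, toFun x y = toFun y x
  nonneg' : ∀ x y, 0 ≤ toFun x y
  le_one' : ∀ x y, toFun x y ≤ 1

/-- The value `W(x_u, x_v)` on an unordered pair `{u, v}`. -/
def edgeVal {V : Type} (W : Graphon) (x : V → I) : Sym2 V → ℝ :=
  Sym2.lift ⟨fun u v => W.toFun (x u) (x v), fun u v => W.symm' (x u) (x v)⟩

open Classical in
/-- The homomorphism density `t(G, W)`. -/
noncomputable def t {V : Type} [Fintype V] (G : SimpleGraph V) (W : Graphon) : ℝ :=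
  ∫ x : V → I, ∏ e : Sym2 V, if e ∈ G.edgeSet then edgeVal W x e else 1

/-- The ratio `log t(H, W) / log t(G, W)`, equal to `∞` if `t(H, W) = 0`. -/
noncomputable def ratio {V V' : Type} [Fintype V] [Fintype V'] (G : SimpleGraph V)
    (H : SimpleGraph V') (W : Graphon) : EReal :=
  if t H W = 0 then ⊤ else ((Real.log (t H W) / Real.log (t G W) : ℝ) : EReal)

/-- The density domination exponent `ρ(G, H)`, an extended real number. -/
noncomputable def rho {V V' : Type} [Fintype V] [Fintype V'] (G : SimpleGraph V)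
    (H : SimpleGraph V') : EReal :=
  ⨆ (W : Graphon) (_ : t G W ≠ 0 ∧ t G W ≠ 1), ratio G H W

/-- degree function -/
noncomputable def deg (W : Graphon) (x : I) : ℝ := ∫ y, W.toFun x y

/-- moments of the degree function -/
noncomputable def mom (W : Graphon) (a : ℕ) : ℝ := ∫ x, deg W x ^ a

theorem meas_left (W : Graphon) (x : I) : Measurable (W.toFun x) :=
  W.measurable'.comp (measurable_const.prodMk measurable_id)

theorem integrable_of_bdd {α : Type*} [MeasurableSpace α] {μ : Measure α} [IsFiniteMeasure μ]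
    {f : α → ℝ} (hf : Measurable f) (h0 : ∀ x, 0 ≤ f x) (h1 : ∀ x, f x ≤ 1) : Integrable f μ := by
  refine Integrable.of_bound hf.aestronglyMeasurable 1 (Eventually.of_forall (fun x => ?_))
  rw [Real.norm_eq_abs, abs_of_nonneg (h0 x)]
  exact h1 x

theorem deg_nonneg (W : Graphon) (x : I) : 0 ≤ deg W x :=
  integral_nonneg (fun y => W.nonneg' x y)

theorem deg_le_one (W : Graphon) (x : I) : deg W x ≤ 1 := by
  have h : ∫ y, W.toFun x y ≤ ∫ _y : I, (1 : ℝ) :=
    integral_mono (integrable_of_bdd (meas_left W x) (W.nonneg' x) (W.le_one' x))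
      (integrable_const 1) (fun y => W.le_one' x y)
  unfold deg
  simpa using h

theorem measurable_deg (W : Graphon) : Measurable (deg W) :=
  (W.measurable'.stronglyMeasurable.integral_prod_right).measurable

theorem integrable_deg_pow (W : Graphon) (a : ℕ) : Integrable (fun x => deg W x ^ a) :=
  integrable_of_bdd ((measurable_deg W).pow_const a) (fun x => pow_nonneg (deg_nonneg W x) a)
    (fun x => pow_le_one₀ (deg_nonneg W x) (deg_le_one W x))

theorem mom_zero (W : Graphon) : mom W 0 = 1 := by simp [mom]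

theorem mom_nonneg (W : Graphon) (a : ℕ) : 0 ≤ mom W a :=
  integral_nonneg (fun x => pow_nonneg (deg_nonneg W x) a)

theorem mom_succ_le (W : Graphon) (a : ℕ) : mom W (a + 1) ≤ mom W a :=
  integral_mono (integrable_deg_pow W _) (integrable_deg_pow W _)
    (fun x => pow_le_pow_of_le_one (deg_nonneg W x) (deg_le_one W x) (Nat.le_succ a))

theorem mom_le_one (W : Graphon) (a : ℕ) : mom W a ≤ 1 := by
  induction a with
  | zero => rw [mom_zero]
  | succ a ih => exact (mom_succ_le W a).trans ih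

theorem mom_convex (W : Graphon) (a : ℕ) : mom W (a + 1) ^ 2 ≤ mom W a * mom W (a + 2) := by
  have key : ∀ r : ℝ, 0 ≤ mom W a * (r * r) + (-2 * mom W (a + 1)) * r + mom W (a + 2) := by
    intro r
    have h : ∫ x, deg W x ^ a * (r - deg W x) ^ 2 =
        mom W a * (r * r) + (-2 * mom W (a + 1)) * r + mom W (a + 2) := by
      have e : (fun x => deg W x ^ a * (r - deg W x) ^ 2) =
          fun x => (r * r) * deg W x ^ a + (-2 * r) * deg W x ^ (a + 1) + deg W x ^ (a + 2) := by
        funext x; ring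
      rw [e, integral_add, integral_add, integral_const_mul, integral_const_mul]
      · unfold mom; ring
      · exact (integrable_deg_pow W _).const_mul _
      · exact (integrable_deg_pow W _).const_mul _
      · exact ((integrable_deg_pow W _).const_mul _).add ((integrable_deg_pow W _).const_mul _)
      · exact integrable_deg_pow W _
    rw [← h]
    exact integral_nonneg (fun x => mul_nonneg (pow_nonneg (deg_nonneg W x) a) (sq_nonneg _))
  have := discrim_le_zero key
  unfold discrim at this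
  nlinarith

theorem mom_pos (W : Graphon) (h : 0 < mom W 1) : ∀ a, 0 < mom W a ∧ 0 < mom W (a + 1) := by
  intro a
  induction a with
  | zero => exact ⟨by rw [mom_zero]; norm_num, h⟩
  | succ a ih =>
    refine ⟨ih.2, ?_⟩
    have h1 := mom_convex W a
    have h2 : 0 < mom W (a + 1) ^ 2 := pow_pos ih.2 2
    by_contra hcon
    push Not at hcon
    nlinarith [ih.1]

theorem mom_le_one_of (W : Graphon) (a : ℕ) : mom W (a + 1) ≤ mom W 1 := by
  induction a with
  | zero => exact le_rfl
  | succ a ih => exact (mom_succ_le W _).trans ih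

/-- `K_{1,a} ⊔ K_{1,b}`. -/
def twoStars (a b : ℕ) : SimpleGraph (Fin (a + 1) ⊕ Fin (b + 1)) where
  Adj u v := match u, v with
    | Sum.inl i, Sum.inl j => (i = 0 ∧ j ≠ 0) ∨ (i ≠ 0 ∧ j = 0)
    | Sum.inr i, Sum.inr j => (i = 0 ∧ j ≠ 0) ∨ (i ≠ 0 ∧ j = 0)
    | Sum.inl _, Sum.inr _ => False
    | Sum.inr _, Sum.inl _ => False
  symm := ⟨by
    rintro (i | i) (j | j) h
    · exact h.elim (fun h => Or.inr ⟨h.2, h.1⟩) (fun h => Or.inl ⟨h.2, h.1⟩)
    · exact h
    · exact h
    · exact h.elim (fun h => Or.inr ⟨h.2, h.1⟩) (fun h => Or.inl ⟨h.2, h.1⟩)⟩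
  loopless := ⟨by
    rintro (i | i) h
    · exact h.elim (fun h => h.2 h.1) (fun h => h.1 h.2)
    · exact h.elim (fun h => h.2 h.1) (fun h => h.1 h.2)⟩

/-- the edges of the two stars -/
def edgeMap (a b : ℕ) : Fin a ⊕ Fin b → Sym2 (Fin (a + 1) ⊕ Fin (b + 1))
  | Sum.inl i => s(Sum.inl 0, Sum.inl i.succ)
  | Sum.inr j => s(Sum.inr 0, Sum.inr j.succ)

theorem edgeMap_inj (a b : ℕ) : Function.Injective (edgeMap a b) := by
  rintro (i | i) (j | j) h
  · simp only [edgeMap, Sym2.eq_iff] at h
    rcases h with ⟨-, h⟩ | ⟨h, h'⟩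
    · have := Sum.inl_injective h
      rw [Fin.succ_inj] at this; rw [this]
    · have := Sum.inl_injective h
      exact absurd this.symm (Fin.succ_ne_zero j)
  · simp [edgeMap] at h
  · simp [edgeMap] at h
  · simp only [edgeMap, Sym2.eq_iff] at h
    rcases h with ⟨-, h⟩ | ⟨h, h'⟩
    · have := Sum.inr_injective h
      rw [Fin.succ_inj] at this; rw [this]
    · have := Sum.inr_injective h
      exact absurd this.symm (Fin.succ_ne_zero j)

theorem mem_edgeSet_iff (a b : ℕ) (e : Sym2 (Fin (a + 1) ⊕ Fin (b + 1))) :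
    e ∈ (twoStars a b).edgeSet ↔ e ∈ Set.range (edgeMap a b) := by
  induction e using Sym2.ind with
  | h u v =>
    rw [SimpleGraph.mem_edgeSet]
    constructor
    · rcases u with i | i <;> rcases v with j | j
      · rintro (⟨rfl, h⟩ | ⟨h, rfl⟩)
        · obtain ⟨k, rfl⟩ := Fin.exists_succ_eq.2 h
          exact ⟨Sum.inl k, rfl⟩
        · obtain ⟨k, rfl⟩ := Fin.exists_succ_eq.2 h
          exact ⟨Sum.inl k, Sym2.eq_swap⟩
      · exact fun h => h.elim
      · exact fun h => h.elim
      · rintro (⟨rfl, h⟩ | ⟨h, rfl⟩)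
        · obtain ⟨k, rfl⟩ := Fin.exists_succ_eq.2 h
          exact ⟨Sum.inr k, rfl⟩
        · obtain ⟨k, rfl⟩ := Fin.exists_succ_eq.2 h
          exact ⟨Sum.inr k, Sym2.eq_swap⟩
    · rintro ⟨k | k, h⟩
      · simp only [edgeMap] at h
        have : (twoStars a b).Adj (Sum.inl 0) (Sum.inl k.succ) :=
          Or.inl ⟨rfl, Fin.succ_ne_zero k⟩
        rw [← SimpleGraph.mem_edgeSet, ← h, SimpleGraph.mem_edgeSet]
        exact this
      · simp only [edgeMap] at h
        have : (twoStars a b).Adj (Sum.inr 0) (Sum.inr k.succ) :=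
          Or.inl ⟨rfl, Fin.succ_ne_zero k⟩
        rw [← SimpleGraph.mem_edgeSet, ← h, SimpleGraph.mem_edgeSet]
        exact this

theorem star_integral (W : Graphon) (a : ℕ) :
    ∫ x : Fin (a + 1) → I, ∏ i : Fin a, W.toFun (x 0) (x i.succ) = mom W a := by
  rw [← ((volume_preserving_piFinSuccAbove (fun _ => I) 0).symm).integral_comp']
  have e : (fun p : I × (Fin a → I) => ∏ i : Fin a,
      W.toFun (((MeasurableEquiv.piFinSuccAbove (fun _ : Fin (a + 1) => I) 0).symm p) 0)
        (((MeasurableEquiv.piFinSuccAbove (fun _ : Fin (a + 1) => I) 0).symm p) i.succ)) =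
      fun p => ∏ i : Fin a, W.toFun p.1 (p.2 i) := by
    funext p
    simp [MeasurableEquiv.piFinSuccAbove_symm_apply, Fin.insertNthEquiv]
  rw [e]
  rw [Measure.volume_eq_prod, integral_prod]
  · unfold mom
    congr 1
    funext x
    have h := integral_fintype_prod_volume_eq_pow (ι := Fin a) (fun y : I => W.toFun x y)
    rw [Fintype.card_fin] at h
    exact h
  · apply integrable_of_bdd
    · apply Finset.measurable_prod
      intro i _
      exact W.measurable'.comp (measurable_fst.prodMk ((measurable_pi_apply i).comp measurable_snd))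
    · intro p; exact Finset.prod_nonneg (fun i _ => W.nonneg' _ _)
    · intro p
      exact Finset.prod_le_one (fun i _ => W.nonneg' _ _) (fun i _ => W.le_one' _ _)

theorem t_twoStars (W : Graphon) (a b : ℕ) : t (twoStars a b) W = mom W a * mom W b := by
  classical
  unfold t
  have e : (fun x : Fin (a + 1) ⊕ Fin (b + 1) → I => ∏ e : Sym2 (Fin (a + 1) ⊕ Fin (b + 1)),
      if e ∈ (twoStars a b).edgeSet then edgeVal W x e else 1) =
      fun x => (∏ i : Fin a, W.toFun (x (Sum.inl 0)) (x (Sum.inl i.succ))) *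
        ∏ j : Fin b, W.toFun (x (Sum.inr 0)) (x (Sum.inr j.succ)) := by
    funext x
    rw [← Finset.prod_filter]
    have h1 : (Finset.univ.filter (fun e => e ∈ (twoStars a b).edgeSet)) =
        Finset.univ.image (edgeMap a b) := by
      ext e
      simp only [Finset.mem_filter, Finset.mem_univ, true_and, Finset.mem_image]
      rw [mem_edgeSet_iff]
      rfl
    rw [h1, Finset.prod_image (fun i _ j _ h => edgeMap_inj a b h), Fintype.prod_sum_type]
    rfl
  have e2 : ∫ x : Fin (a + 1) ⊕ Fin (b + 1) → I, ∏ e : Sym2 (Fin (a + 1) ⊕ Fin (b + 1)),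
      (if e ∈ (twoStars a b).edgeSet then edgeVal W x e else 1) =
      ∫ x : Fin (a + 1) ⊕ Fin (b + 1) → I,
        (∏ i : Fin a, W.toFun (x (Sum.inl 0)) (x (Sum.inl i.succ))) *
        ∏ j : Fin b, W.toFun (x (Sum.inr 0)) (x (Sum.inr j.succ)) := by
    rw [e]
  rw [e2]
  rw [← ((volume_measurePreserving_sumPiEquivProdPi
    (fun _ : Fin (a + 1) ⊕ Fin (b + 1) => I)).symm).integral_comp']
  have e3 : ∀ p : (Fin (a + 1) → I) × (Fin (b + 1) → I),
      (∏ i : Fin a, W.toFun
        (((MeasurableEquiv.sumPiEquivProdPi (fun _ : Fin (a + 1) ⊕ Fin (b + 1) => I)).symm p)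
          (Sum.inl 0))
        (((MeasurableEquiv.sumPiEquivProdPi (fun _ : Fin (a + 1) ⊕ Fin (b + 1) => I)).symm p)
          (Sum.inl i.succ))) *
      ∏ j : Fin b, W.toFun
        (((MeasurableEquiv.sumPiEquivProdPi (fun _ : Fin (a + 1) ⊕ Fin (b + 1) => I)).symm p)
          (Sum.inr 0))
        (((MeasurableEquiv.sumPiEquivProdPi (fun _ : Fin (a + 1) ⊕ Fin (b + 1) => I)).symm p)
          (Sum.inr j.succ)) =
      (∏ i : Fin a, W.toFun (p.1 0) (p.1 i.succ)) * ∏ j : Fin b, W.toFun (p.2 0) (p.2 j.succ) := by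
    intro p; rfl
  simp_rw [e3]
  rw [Measure.volume_eq_prod]
  rw [integral_prod_mul (fun x : Fin (a + 1) → I => ∏ i : Fin a, W.toFun (x 0) (x i.succ))
    (fun y : Fin (b + 1) → I => ∏ j : Fin b, W.toFun (y 0) (y j.succ))]
  rw [star_integral, star_integral]

/-! ### Concave sequences -/

theorem seq_scale (x : ℕ → ℝ) (h0 : x 0 = 0)
    (hc : ∀ a, x a + x (a + 2) ≤ 2 * x (a + 1)) (k : ℕ) : k * x (k + 1) ≤ (k + 1) * x k := by
  induction k with
  | zero => simp [h0]
  | succ k ih =>
    have h1 := hc k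
    push_cast
    have h2 : (0 : ℝ) ≤ k := Nat.cast_nonneg k
    have h3 : x k ≥ k / (k + 1) * x (k + 1) := by
      rw [ge_iff_le, div_mul_eq_mul_div, div_le_iff₀ (by positivity)]
      linarith
    have h4 : (k + 1 : ℝ) * x (k + 2) ≤ (k + 1) * (2 * x (k + 1) - x k) :=
      mul_le_mul_of_nonneg_left (by linarith) (by positivity)
    nlinarith

theorem seq_incr (x : ℕ → ℝ) (hc : ∀ a, x a + x (a + 2) ≤ 2 * x (a + 1)) (a d : ℕ) :
    x (a + d + 1) - x (a + d) ≤ x (a + 1) - x a := by
  induction d with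
  | zero => exact le_rfl
  | succ d ih =>
    have := hc (a + d)
    have e1 : a + (d + 1) + 1 = a + d + 2 := by ring
    have e2 : a + (d + 1) = a + d + 1 := by ring
    rw [e1, e2]
    linarith

/-- `-log` of the moments. -/
noncomputable def xs (W : Graphon) (a : ℕ) : ℝ := - Real.log (mom W a)

theorem xs_zero (W : Graphon) : xs W 0 = 0 := by simp [xs, mom_zero]

theorem xs_mono (W : Graphon) (h : 0 < mom W 1) (a : ℕ) : xs W a ≤ xs W (a + 1) := by
  unfold xs
  have := Real.log_le_log (mom_pos W h a).2 (mom_succ_le W a)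
  linarith

theorem xs_concave (W : Graphon) (h : 0 < mom W 1) (a : ℕ) :
    xs W a + xs W (a + 2) ≤ 2 * xs W (a + 1) := by
  unfold xs
  have h1 := (mom_pos W h a).1
  have h2 := (mom_pos W h (a + 1)).1
  have h3 := (mom_pos W h (a + 1)).2
  have := Real.log_le_log (pow_pos h2 2) (mom_convex W a)
  rw [Real.log_pow, Real.log_mul h1.ne' h3.ne'] at this
  push_cast at this
  linarith

theorem xs_nonneg (W : Graphon) (h : 0 < mom W 1) (a : ℕ) : 0 ≤ xs W a := by
  induction a with
  | zero => rw [xs_zero]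
  | succ a ih => exact ih.trans (xs_mono W h a)

theorem ratio_eq (W : Graphon) (h : 0 < mom W 1) (k : ℕ) :
    ratio (twoStars k (k + 2)) (twoStars (k + 1) (k + 1)) W =
      ((2 * xs W (k + 1) / (xs W k + xs W (k + 2)) : ℝ) : EReal) := by
  have h1 := (mom_pos W h k).1
  have h2 := (mom_pos W h (k + 1)).1
  have h3 := (mom_pos W h (k + 1)).2
  unfold ratio
  rw [t_twoStars, t_twoStars, if_neg (mul_pos h2 h2).ne']
  rw [Real.log_mul h2.ne' h2.ne', Real.log_mul h1.ne' h3.ne']
  congr 1
  unfold xs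
  rw [← neg_div_neg_eq]
  congr 1 <;> ring

theorem ratio_top (W : Graphon) (h : ¬ 0 < mom W 1) (k : ℕ) :
    ratio (twoStars k (k + 2)) (twoStars (k + 1) (k + 1)) W = ⊤ := by
  have h1 : mom W (k + 1) = 0 := by
    have := mom_le_one_of W k
    have := mom_nonneg W (k + 1)
    push Not at h
    linarith
  unfold ratio
  rw [if_pos]
  rw [t_twoStars, h1, mul_zero]

/-- Two exponents cannot be nearly realised by one graphon. -/
theorem gap (x : ℕ → ℝ) (h0 : x 0 = 0) (hm : ∀ a, x a ≤ x (a + 1))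
    (hc : ∀ a, x a + x (a + 2) ≤ 2 * x (a + 1)) (k d : ℕ) (ε : ℝ) (hε : 0 < ε) (hε1 : ε < 1)
    (h1 : 1 + ε < 2 * x (k + 1 + d + 1) / (x (k + 1 + d) + x (k + 1 + d + 2)))
    (h2 : 2 / ((2 * k + 1) / (k + 1) + 2 * ε) < 2 * x (k + 1) / (x k + x (k + 2))) : False := by
  have hmono : Monotone x := monotone_nat_of_le_succ hm
  have hpos : ∀ a, 0 ≤ x a := fun a => by rw [← h0]; exact hmono (Nat.zero_le a)
  have hk0 : (0 : ℝ) ≤ k := Nat.cast_nonneg k
  have hden1 : 0 < x (k + 1 + d) + x (k + 1 + d + 2) := by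
    rcases (add_nonneg (hpos (k + 1 + d)) (hpos (k + 1 + d + 2))).lt_or_eq with h | h
    · exact h
    · rw [← h, div_zero] at h1; linarith
  have hden2 : 0 < x k + x (k + 2) := by
    rcases (add_nonneg (hpos k) (hpos (k + 2))).lt_or_eq with h | h
    · exact h
    · rw [← h, div_zero] at h2
      have : 0 < 2 / ((2 * k + 1) / (k + 1) + 2 * ε) := by positivity
      linarith
  rw [lt_div_iff₀ hden1] at h1
  have h3 : x (k + 1 + d + 1) ≤ x (k + 1 + d + 2) := hm _
  have h4 : x (k + 1) ≤ x (k + 1 + d) := hmono (by omega)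
  have h5 := seq_incr x hc (k + 1) d
  have h6 : 2 * ε * x (k + 1) ≤ x (k + 1 + 1) - x (k + 1) := by
    have h7 : (1 + ε) * (x (k + 1 + d) + x (k + 1 + d + 1)) < 2 * x (k + 1 + d + 1) := by nlinarith
    have h8 : 0 ≤ x (k + 1 + d) := hpos _
    have h9 : 2 * ε * x (k + 1 + d) ≤ x (k + 1 + d + 1) - x (k + 1 + d) := by
      have h9 : (1 + ε) * x (k + 1 + d) < (1 - ε) * x (k + 1 + d + 1) := by nlinarith
      by_contra hcon
      push Not at hcon
      have h10 : (1 - ε) * x (k + 1 + d + 1) ≤ (1 - ε) * ((1 + 2 * ε) * x (k + 1 + d)) :=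
        mul_le_mul_of_nonneg_left (by linarith) (by linarith)
      have h11 : 0 ≤ ε ^ 2 * x (k + 1 + d) := mul_nonneg (sq_nonneg _) h8
      nlinarith
    nlinarith
  have h10 : x (k + 1 + 1) = x (k + 2) := rfl
  rw [h10] at h6
  have h11 := seq_scale x h0 hc k
  have h12 : (k / (k + 1) : ℝ) * x (k + 1) ≤ x k := by
    rw [div_mul_eq_mul_div, div_le_iff₀ (by positivity)]
    linarith
  rw [div_lt_div_iff₀ (by positivity) hden2] at h2
  have h13 : ((2 * k + 1) / (k + 1) + 2 * ε : ℝ) * x (k + 1) ≤ x k + x (k + 2) := by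
    have e : ((2 * k + 1) / (k + 1) : ℝ) = k / (k + 1) + 1 := by
      field_simp; ring
    rw [e]; nlinarith
  nlinarith

/-- `c_k = (2k+2)/(2k+1)`, the exponent. -/
noncomputable def cc (k : ℕ) : ℝ := 2 * (k + 1) / (2 * k + 1)

theorem ratio_le (x : ℕ → ℝ) (h0 : x 0 = 0) (hm : ∀ a, x a ≤ x (a + 1))
    (hc : ∀ a, x a + x (a + 2) ≤ 2 * x (a + 1)) (k : ℕ) :
    2 * x (k + 1) / (x k + x (k + 2)) ≤ cc k := by
  have hmono : Monotone x := monotone_nat_of_le_succ hm
  have hpos : ∀ a, 0 ≤ x a := fun a => by rw [← h0]; exact hmono (Nat.zero_le a)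
  have hk0 : (0 : ℝ) ≤ k := Nat.cast_nonneg k
  unfold cc
  rcases (add_nonneg (hpos k) (hpos (k + 2))).lt_or_eq with h | h
  · rw [div_le_div_iff₀ h (by positivity)]
    have h1 := seq_scale x h0 hc k
    have h2 : x (k + 1) ≤ x (k + 2) := hm _
    nlinarith
  · rw [← h, div_zero]; positivity

/-! ### Sharpness -/

/-- The graphon that is `1` on `S × [0,1] ∪ [0,1] × S`, `S = [0, s]`, and `p` elsewhere. -/
noncomputable def starGraphon (s : I) (p : ℝ) (h0 : 0 ≤ p) (h1 : p ≤ 1) : Graphon where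
  toFun x y := if x ≤ s ∨ y ≤ s then 1 else p
  measurable' := by
    have h1 : MeasurableSet {q : I × I | q.1 ≤ s} := measurableSet_le measurable_fst measurable_const
    have h2 : MeasurableSet {q : I × I | q.2 ≤ s} := measurableSet_le measurable_snd measurable_const
    exact Measurable.ite (h1.union h2) measurable_const measurable_const
  symm' x y := by simp only [or_comm]
  nonneg' x y := by split_ifs <;> linarith
  le_one' x y := by split_ifs <;> linarith

theorem integral_step (s : I) (a b : ℝ) : ∫ x : I, (if x ≤ s then a else b) = b + (a - b) * s := by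
  have e : (fun x : I => if x ≤ s then a else b) =
      fun x => b + (Set.Iic s).indicator (fun _ => a - b) x := by
    funext x
    by_cases h : x ≤ s
    · rw [Set.indicator_of_mem (show x ∈ Set.Iic s from h)]; simp [h]
    · rw [Set.indicator_of_notMem (show x ∉ Set.Iic s from h)]; simp [h]
  rw [e, integral_add (integrable_const _), integral_indicator measurableSet_Iic]
  · have h1 : (volume : Measure I).real (Set.Iic s) = s := by
      rw [Measure.real, unitInterval.volume_Iic, ENNReal.toReal_ofReal s.2.1]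
    simp [h1]
    ring
  · exact (integrable_const _).indicator measurableSet_Iic

theorem deg_star (s : I) (p : ℝ) (h0 : 0 ≤ p) (h1 : p ≤ 1) (x : I) :
    deg (starGraphon s p h0 h1) x = if x ≤ s then 1 else p + (1 - p) * s := by
  unfold deg
  by_cases h : x ≤ s
  · simp [starGraphon, h]
  · simp only [starGraphon, h, false_or, if_false]
    exact integral_step s 1 p

theorem mom_star (s : I) (p : ℝ) (h0 : 0 ≤ p) (h1 : p ≤ 1) (a : ℕ) :
    mom (starGraphon s p h0 h1) a =
      (p + (1 - p) * s) ^ a + (1 - (p + (1 - p) * s) ^ a) * s := by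
  unfold mom
  rw [← integral_step s 1 ((p + (1 - p) * s) ^ a)]
  congr 1
  funext x
  rw [deg_star]
  split_ifs <;> simp

/-- The exponent is approached by these graphons. -/
theorem exists_near (k : ℕ) (r : ℝ) (hr : r < cc k) : ∃ W : Graphon, 0 < mom W 1 ∧
    xs W k + xs W (k + 2) ≠ 0 ∧ r < 2 * xs W (k + 1) / (xs W k + xs W (k + 2)) := by
  have hk0 : (0 : ℝ) ≤ k := Nat.cast_nonneg k
  set C : ℝ := Real.log (2 ^ (k + 1) + 1) with hC
  have hC0 : 0 < C := Real.log_pos (by
    have : (0 : ℝ) < 2 ^ (k + 1) := by positivity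
    linarith)
  -- choose `L` large
  obtain ⟨L, hL1, hL2, hL3⟩ : ∃ L : ℝ, 1 ≤ L ∧ C < L ∧
      r < 2 * ((k + 1) * L - C) / ((2 * k + 1) * L) := by
    have hlim : Tendsto (fun L : ℝ => cc k - 2 * C / (2 * k + 1) * L⁻¹) atTop
        (𝓝 (cc k - 2 * C / (2 * k + 1) * 0)) :=
      tendsto_const_nhds.sub (tendsto_const_nhds.mul tendsto_inv_atTop_zero)
    rw [mul_zero, sub_zero] at hlim
    have h1 := hlim.eventually (lt_mem_nhds hr)
    obtain ⟨L, hL⟩ := (h1.and ((eventually_ge_atTop (1 : ℝ)).and (eventually_gt_atTop C))).exists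
    refine ⟨L, hL.2.1, hL.2.2, ?_⟩
    have hLpos : 0 < L := by linarith [hL.2.1]
    have e : 2 * ((k + 1) * L - C) / ((2 * k + 1) * L) = cc k - 2 * C / (2 * k + 1) * L⁻¹ := by
      unfold cc
      field_simp
    rw [e]; exact hL.1
  set p : ℝ := Real.exp (-L) with hp
  have hp0 : 0 < p := Real.exp_pos _
  have hp1 : p < 1 := by rw [hp]; exact Real.exp_lt_one_iff.2 (by linarith)
  have hs0 : 0 < p ^ (k + 1) := pow_pos hp0 _
  have hs1 : p ^ (k + 1) ≤ p := by
    calc p ^ (k + 1) ≤ p ^ 1 := pow_le_pow_of_le_one hp0.le hp1.le (by omega)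
      _ = p := pow_one p
  let s : I := ⟨p ^ (k + 1), hs0.le, hs1.trans hp1.le⟩
  have hs : (s : ℝ) = p ^ (k + 1) := rfl
  set q : ℝ := p + (1 - p) * s with hq
  have hqp : p ≤ q := by
    rw [hq, hs]; nlinarith
  have hq2 : q ≤ 2 * p := by
    rw [hq, hs]; nlinarith
  have hq1 : q ≤ 1 := by
    rw [hq, hs]; nlinarith [pow_le_one₀ (n := k + 1) hp0.le hp1.le]
  have hq0 : 0 < q := lt_of_lt_of_le hp0 hqp
  let W := starGraphon s p hp0.le hp1.le
  have hmom : ∀ a, mom W a = q ^ a + (1 - q ^ a) * s := fun a => mom_star s p hp0.le hp1.le a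
  have hmom_ge : ∀ a, q ^ a ≤ mom W a := by
    intro a
    rw [hmom a]
    have h2 : q ^ a ≤ 1 := pow_le_one₀ hq0.le hq1
    nlinarith [s.2.1]
  have hpos : 0 < mom W 1 := lt_of_lt_of_le (pow_pos hq0 1) (hmom_ge 1)
  have hlogp : Real.log p = -L := by rw [hp, Real.log_exp]
  have hx0 : xs W k ≤ k * L := by
    unfold xs
    have h1 : p ^ k ≤ mom W k := (pow_le_pow_left₀ hp0.le hqp k).trans (hmom_ge k)
    have h2 := Real.log_le_log (pow_pos hp0 k) h1
    rw [Real.log_pow, hlogp] at h2
    linarith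
  have hx2 : xs W (k + 2) ≤ (k + 1) * L := by
    unfold xs
    have h1 : p ^ (k + 1) ≤ mom W (k + 2) := by
      rw [hmom]
      have h2 : 0 < q ^ (k + 2) := pow_pos hq0 _
      have h3 : (s : ℝ) ≤ 1 := s.2.2
      rw [← hs]
      nlinarith
    have h2 := Real.log_le_log (pow_pos hp0 _) h1
    rw [Real.log_pow, hlogp] at h2
    push_cast at h2
    linarith
  have hx1 : (k + 1) * L - C ≤ xs W (k + 1) := by
    unfold xs
    have h1 : mom W (k + 1) ≤ (2 ^ (k + 1) + 1) * p ^ (k + 1) := by
      rw [hmom]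
      have h2 : q ^ (k + 1) ≤ (2 * p) ^ (k + 1) := pow_le_pow_left₀ hq0.le hq2 _
      rw [mul_pow] at h2
      have h3 : 0 ≤ q ^ (k + 1) := (pow_pos hq0 _).le
      rw [hs]
      nlinarith
    have h2 := Real.log_le_log (mom_pos W hpos (k + 1)).1 h1
    rw [Real.log_mul (by positivity) (by positivity), Real.log_pow, hlogp, ← hC] at h2
    push_cast at h2
    linarith
  have hx1pos : 0 < (k + 1) * L - C := by nlinarith
  have hden : 0 < xs W k + xs W (k + 2) := by
    have h1 := xs_nonneg W hpos k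
    have h2 := xs_mono W hpos (k + 1)
    have e : k + 1 + 1 = k + 2 := rfl
    rw [e] at h2
    linarith
  refine ⟨W, hpos, hden.ne', lt_of_lt_of_le hL3 ?_⟩
  rw [div_le_div_iff₀ (by positivity) hden]
  have h1 : xs W k + xs W (k + 2) ≤ (2 * k + 1) * L := by linarith
  have h2 : 0 ≤ xs W k + xs W (k + 2) := hden.le
  calc 2 * ((k + 1) * L - C) * (xs W k + xs W (k + 2))
      ≤ 2 * xs W (k + 1) * (xs W k + xs W (k + 2)) :=
        mul_le_mul_of_nonneg_right (by linarith) h2
    _ ≤ 2 * xs W (k + 1) * ((2 * k + 1) * L) :=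
        mul_le_mul_of_nonneg_left h1 (by linarith)

theorem rho_eq (k : ℕ) : rho (twoStars k (k + 2)) (twoStars (k + 1) (k + 1)) = (cc k : EReal) := by
  apply le_antisymm
  · unfold rho
    refine iSup₂_le ?_
    rintro W ⟨h0, -⟩
    have hpos : 0 < mom W 1 := by
      by_contra h
      apply h0
      have h1 : mom W (k + 2) = 0 := by
        have := mom_le_one_of W (k + 1)
        have := mom_nonneg W (k + 2)
        push Not at h
        have e : k + 1 + 1 = k + 2 := rfl
        rw [e] at *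
        linarith
      rw [t_twoStars, h1, mul_zero]
    rw [ratio_eq W hpos k]
    exact EReal.coe_le_coe_iff.2 (ratio_le _ (xs_zero W) (xs_mono W hpos) (xs_concave W hpos) k)
  · by_contra hcon
    push Not at hcon
    obtain ⟨r, hr1, hr2⟩ := EReal.lt_iff_exists_real_btwn.1 hcon
    obtain ⟨W, hpos, hden, hW⟩ := exists_near k r (EReal.coe_lt_coe_iff.1 hr2)
    have h1 := (mom_pos W hpos k).1
    have h3 := (mom_pos W hpos (k + 1)).2
    have hlog : Real.log (t (twoStars k (k + 2)) W) = - (xs W k + xs W (k + 2)) := by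
      rw [t_twoStars, Real.log_mul h1.ne' h3.ne']
      unfold xs; ring
    have hle : ratio (twoStars k (k + 2)) (twoStars (k + 1) (k + 1)) W ≤
        rho (twoStars k (k + 2)) (twoStars (k + 1) (k + 1)) := by
      unfold rho
      refine le_iSup₂ (f := fun (W : Graphon) (_ : t (twoStars k (k + 2)) W ≠ 0 ∧
        t (twoStars k (k + 2)) W ≠ 1) => ratio (twoStars k (k + 2)) (twoStars (k + 1) (k + 1)) W)
        W ⟨?_, ?_⟩
      · rw [t_twoStars]; exact (mul_pos h1 h3).ne'
      · intro h
        rw [h, Real.log_one] at hlog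
        exact hden (by linarith)
    rw [ratio_eq W hpos k] at hle
    have h5 : (r : EReal) < ((2 * xs W (k + 1) / (xs W k + xs W (k + 2)) : ℝ) : EReal) :=
      EReal.coe_lt_coe_iff.2 hW
    exact absurd (lt_of_lt_of_le h5 hle) (not_lt.2 hr1.le)

/-- A sequence realises the exponent of the `k`-th pair. -/
def Tight (W : ℕ → Graphon) (k : ℕ) : Prop :=
  Tendsto (fun n => ratio (twoStars k (k + 2)) (twoStars (k + 1) (k + 1)) (W n)) atTop
    (𝓝 (rho (twoStars k (k + 2)) (twoStars (k + 1) (k + 1))))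

theorem tight_unique (W : ℕ → Graphon) (k d : ℕ) (h1 : Tight W k) (h2 : Tight W (k + 1 + d)) :
    False := by
  unfold Tight at h1 h2
  rw [rho_eq] at h1 h2
  set l := k + 1 + d with hl
  have hk0 : (0 : ℝ) ≤ k := Nat.cast_nonneg k
  have hl0 : (0 : ℝ) ≤ l := Nat.cast_nonneg l
  let ε : ℝ := 1 / (2 * (2 * l + 1))
  have hε : 0 < ε := by positivity
  have hε1 : ε < 1 := by
    rw [div_lt_one (by positivity)]; linarith
  have a1 : 1 + ε < cc l := by
    have e : cc l = 1 + 1 / (2 * l + 1) := by unfold cc; field_simp; ring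
    rw [e]
    have : ε < 1 / (2 * l + 1) := by
      apply one_div_lt_one_div_of_lt (by positivity)
      linarith
    linarith
  have a2 : 2 / ((2 * k + 1) / (k + 1) + 2 * ε) < cc k := by
    have e : cc k = 2 / ((2 * k + 1) / (k + 1)) := by unfold cc; field_simp
    rw [e]
    apply div_lt_div_of_pos_left (by norm_num) (by positivity)
    linarith
  have e1 := h2.eventually (lt_mem_nhds (EReal.coe_lt_coe_iff.2 a1))
  have e2 := h1.eventually (lt_mem_nhds (EReal.coe_lt_coe_iff.2 a2))
  have e3 := h2.eventually (gt_mem_nhds (EReal.coe_lt_top (cc l)))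
  obtain ⟨n, hn1, hn2, hn3⟩ := (e1.and (e2.and e3)).exists
  have hpos : 0 < mom (W n) 1 := by
    by_contra h
    rw [ratio_top (W n) h] at hn3
    exact lt_irrefl _ hn3
  rw [ratio_eq (W n) hpos] at hn1 hn2
  exact gap (xs (W n)) (xs_zero _) (xs_mono _ hpos) (xs_concave _ hpos) k d ε hε hε1
    (EReal.coe_lt_coe_iff.1 hn1) (EReal.coe_lt_coe_iff.1 hn2)

/-- **Positive answer to Q1 of MP_828339_co.**  For every finite family `F` of graphon sequences
there are finite graphs `G, H` with `ρ(G, H)` finite such that for no sequence `W` in `F` the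
ratio `log t(H, W_n) / log t(G, W_n)` converges to `ρ(G, H)`. -/
theorem result (F : Set (ℕ → Graphon)) (hF : F.Finite) :
    ∃ (V V' : Type) (_ : Fintype V) (_ : Fintype V') (G : SimpleGraph V) (H : SimpleGraph V'),
      (∃ r : ℝ, rho G H = (r : EReal)) ∧
      ∀ W ∈ F, ¬ Tendsto (fun n => ratio G H (W n)) atTop (𝓝 (rho G H)) := by
  by_contra hcon
  push Not at hcon
  have h : ∀ k : ℕ, ∃ W ∈ F, Tight W k := fun k =>
    hcon _ _ inferInstance inferInstance (twoStars k (k + 2)) (twoStars (k + 1) (k + 1))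
      ⟨cc k, rho_eq k⟩
  choose f hf1 hf2 using h
  have hinj : Function.Injective f := by
    intro a b hab
    by_contra hne
    rcases Nat.lt_or_gt_of_ne hne with hlt | hlt
    · obtain ⟨d, rfl⟩ := Nat.exists_eq_add_of_lt hlt
      have h1 := hf2 a
      have h2 := hf2 (a + d + 1)
      rw [← hab] at h2
      have e : a + d + 1 = a + 1 + d := by ring
      rw [e] at h2
      exact tight_unique _ _ _ h1 h2
    · obtain ⟨d, rfl⟩ := Nat.exists_eq_add_of_lt hlt
      have h1 := hf2 b
      have h2 := hf2 (b + d + 1)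
      rw [hab] at h2
      have e : b + d + 1 = b + 1 + d := by ring
      rw [e] at h2
      exact tight_unique _ _ _ h1 h2
  exact Set.infinite_of_injective_forall_mem hinj hf1 hF

end Pool.Agent.Results.MP_828339_co.FiniteFamilies
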